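import Pool.Agent.Helper64.DT.Stmts

/-! MP_866009_co, diamond-free circle graphs: LAM. -/

set_option autoImplicit false

namespace Pool.Agent.Helper64.DT

open Pool.Agent.Helper64.CT
open Pool.Agent.Helper64.HG (Ovl Model Circ IC HellyCircle ChordModel)

variable {V : Type}

/-- `Bool` as `ZMod 2` -/
def lam_z (b : Bool) : ZMod 2 := if b = true then 1 else 0

theorem lam_xor (a b : Bool) : lam_z (xor a b) = lam_z a + lam_z b := by
  cases a <;> cases b <;> decide

theorem lam_not (a : Bool) : lam_z (!a) = 1 + lam_z a := by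
  cases a <;> decide

theorem lam_two (x : ZMod 2) : x + x = 0 := CharTwo.add_self_eq_zero x

theorem lam_card (b : ℕ → Bool) (t : ℕ) :
    (((Finset.range t).filter (fun i => b i = true)).card : ZMod 2)
      = ∑ i ∈ Finset.range t, lam_z (b i) := by
  rw [Finset.card_filter]
  push_cast
  rfl

theorem lam_cyc (F : ℕ → ZMod 2) (t : ℕ) (hF : ∀ i, F (i + t) = F i) (m : ℕ) :
    ∑ i ∈ Finset.range t, F (i + m) = ∑ i ∈ Finset.range t, F i := by
  induction m with
  | zero => rfl
  | succ m ih =>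
    rw [← ih]
    have h1 := Finset.sum_range_succ (fun i => F (i + m)) t
    have h2 := Finset.sum_range_succ' (fun i => F (i + m)) t
    rw [h1] at h2
    have h3 : F (t + m) = F (0 + m) := by
      rw [Nat.add_comm t m, hF, Nat.zero_add]
    rw [h3] at h2
    have h4 := add_right_cancel h2
    rw [h4]
    refine Finset.sum_congr rfl fun i _ => ?_
    rw [show i + (m + 1) = i + 1 + m by omega]

theorem st_LAM (hB : ST_BAL) : ST_LAM := by
  intro V G s Dθ Dσ Dκ g hDF hS1 hSQ hg1 hg2
  have hz : ∀ a b : Bool, a = b → lam_z a = lam_z b := fun a b h => by rw [h]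
  have hsym : ∀ u v b, (G.Adj u v ∧ b = !(xor (g u v) (g v u))) →
      (G.Adj v u ∧ b = !(xor (g v u) (g u v))) := by
    intro u v b hE
    refine ⟨hE.1.symm, ?_⟩
    rw [hE.2, Bool.xor_comm]
  rcases hB V (fun u v b => G.Adj u v ∧ b = !(xor (g u v) (g v u))) hsym with h | h | h | h
  · obtain ⟨f, hf⟩ := h
    exact ⟨f, fun u v huv => hf u v _ ⟨huv, rfl⟩⟩
  · obtain ⟨u, h, _⟩ := h
    exact absurd rfl h.ne
  · obtain ⟨u, v, ⟨_, h1⟩, ⟨_, h2⟩⟩ := h
    rw [← h1] at h2
    exact absurd h2 (by decide)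
  · exfalso
    obtain ⟨t, y, b, ht, hy, hb, hE, hodd, _, hne, hfar⟩ := h
    have hadj : ∀ i, G.Adj (y i) (y (i + 1)) := fun i => (hE i).1
    have hbz : ∀ i, lam_z (b i) = 1 + (lam_z (g (y i) (y (i + 1))) + lam_z (g (y (i + 1)) (y i))) :=
      fun i => by rw [(hE i).2, lam_not, lam_xor]
    have hpred : ∀ i, y (i + (t - 1) + 1) = y i := fun i => by
      rw [show i + (t - 1) + 1 = i + t by omega, hy]
    have hadj' : ∀ i, G.Adj (y i) (y (i + (t - 1))) := fun i => by
      have h := hadj (i + (t - 1))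
      rw [hpred] at h
      exact h.symm
    have htot : ∑ i ∈ Finset.range t, lam_z (b i) = 1 := by
      rw [← lam_card]
      exact (ZMod.natCast_eq_one_iff_odd).2 hodd
    have hper : ∀ i m, y (i + t + m) = y (i + m) := fun i m => by
      rw [show i + t + m = i + m + t by omega, hy]
    have e1 : ∑ i ∈ Finset.range t, lam_z (g (y (i + 1)) (y i))
        = ∑ i ∈ Finset.range t, lam_z (g (y i) (y (i + (t - 1)))) := by
      rw [← lam_cyc (fun i => lam_z (g (y i) (y (i + (t - 1))))) t (fun i => by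
        simp only [hy, hper]) 1]
      refine Finset.sum_congr rfl fun i _ => ?_
      rw [show i + 1 + (t - 1) = i + t by omega, hy]
    have e2 : ∑ i ∈ Finset.range t, (1 + (lam_z (g (y i) (y (i + 1)))
        + lam_z (g (y i) (y (i + (t - 1)))))) = 1 := by
      refine Eq.trans ?_ htot
      simp only [hbz, Finset.sum_add_distrib, e1]
    rcases Nat.lt_or_ge 3 t with h4 | h3
    · -- `t ≥ 4`
      have hnadj : ∀ i j, i + 2 ≤ j → j + 2 ≤ i + t → ¬ G.Adj (y i) (y j) := fun i j h1 h2 h3 =>
        (hfar i j h1 h2).2 _ ⟨h3, rfl⟩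
      have k1 : ∀ i, lam_z (g (y i) (y (i + 1))) + lam_z (g (y i) (y (i + (t - 1))))
          = 1 + (lam_z (s (y (i + 1)) (y (i + (t - 1)))) +
            lam_z (s (y (i + (t - 1))) (y (i + 1)))) := fun i => by
        have h := hg1 (y i) (y (i + 1)) (y (i + (t - 1))) (hadj i) (hadj' i)
          (hfar (i + 1) (i + (t - 1)) (by omega) (by omega)).1
          (hnadj (i + 1) (i + (t - 1)) (by omega) (by omega))
        have h' := hz _ _ h
        rwa [lam_xor, lam_not, lam_xor] at h'
      have k2 : ∑ i ∈ Finset.range t, (lam_z (s (y (i + 1)) (y (i + (t - 1)))) +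
            lam_z (s (y (i + (t - 1))) (y (i + 1)))) = 1 := by
        refine Eq.trans ?_ e2
        refine Finset.sum_congr rfl fun i _ => ?_
        rw [k1 i, ← add_assoc, lam_two, zero_add]
      have k3 : ∑ i ∈ Finset.range t, lam_z (s (y (i + 1)) (y (i + (t - 1))))
          = ∑ i ∈ Finset.range t, lam_z (s (y i) (y (i + (t - 2)))) := by
        rw [← lam_cyc (fun i => lam_z (s (y i) (y (i + (t - 2))))) t (fun i => by
          simp only [hy, hper]) 1]
        refine Finset.sum_congr rfl fun i _ => ?_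
        rw [show i + 1 + (t - 2) = i + (t - 1) by omega]
      have k4 : ∑ i ∈ Finset.range t, lam_z (s (y (i + (t - 1))) (y (i + 1)))
          = ∑ i ∈ Finset.range t, lam_z (s (y i) (y (i + 2))) := by
        rw [← lam_cyc (fun i => lam_z (s (y i) (y (i + 2)))) t (fun i => by
          simp only [hy, hper]) (t - 1)]
        refine Finset.sum_congr rfl fun i _ => ?_
        rw [show i + (t - 1) + 2 = i + t + 1 by omega, hper]
      have k5 : ∀ i m, m + 4 ≤ t → s (y i) (y (i + (m + 2))) = s (y i) (y (i + 2)) := by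
        intro i m
        induction m with
        | zero => intro _; rw [Nat.zero_add]
        | succ m ih =>
          intro hm
          rw [← ih (by omega)]
          have f1 := hfar i (i + (m + 2)) (by omega) (by omega)
          have f2 := hfar i (i + (m + 1 + 2)) (by omega) (by omega)
          refine (hS1 (y i) _ _ ⟨fun e => f1.1 e.symm, hnadj i (i + (m + 2)) (by omega) (by omega)⟩
            ⟨fun e => f2.1 e.symm, hnadj i (i + (m + 1 + 2)) (by omega) (by omega)⟩ ?_).symm
          exact hadj (i + (m + 2))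
      rw [Finset.sum_add_distrib, k3, k4, ← Finset.sum_add_distrib] at k2
      have k6 : ∀ i ∈ Finset.range t, lam_z (s (y i) (y (i + (t - 2)))) +
          lam_z (s (y i) (y (i + 2))) = 0 := fun i _ => by
        have h := k5 i (t - 4) (by omega)
        rw [show t - 4 + 2 = t - 2 by omega] at h
        rw [h, lam_two]
      rw [Finset.sum_eq_zero k6] at k2
      exact absurd k2 (by decide)
    · -- `t = 3`
      have h3' : t = 3 := le_antisymm h3 ht
      subst h3'
      have hQ := exists_MaxC hDF (hadj 0)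
      set Q : Set V := {u | u = y 0 ∨ u = y (0 + 1) ∨ (G.Adj (y 0) u ∧ G.Adj (y (0 + 1)) u)}
        with hQdef
      have m0 : y 0 ∈ Q := Or.inl rfl
      have m1 : y 1 ∈ Q := Or.inr (Or.inl rfl)
      have m2 : y 2 ∈ Q := Or.inr (Or.inr ⟨hadj' 0, hadj 1⟩)
      have p3 : y 3 = y 0 := hy 0
      have p4 : y 4 = y 1 := hy 1
      have n01 : y 0 ≠ y 1 := hne 0
      have n12 : y 1 ≠ y 2 := hne 1
      have n20 : y 2 ≠ y 0 := fun e => hne 2 (e.trans p3.symm)
      have hinj := (hSQ Q hQ).1
      have hlt : ∀ u ∈ Q, ∀ v ∈ Q, u ≠ v →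
          lam_z (decide (Dθ Q u < Dθ Q v)) + lam_z (decide (Dθ Q v < Dθ Q u)) = 1 := by
        intro u hu v hv huv
        have hne' : Dθ Q u ≠ Dθ Q v := fun e => huv (hinj hu hv e)
        rcases lt_or_gt_of_ne hne' with h | h
        · rw [decide_eq_true h, decide_eq_false (Nat.lt_asymm h)]
          decide
        · rw [decide_eq_true h, decide_eq_false (Nat.lt_asymm h)]
          decide
      have kk : ∀ n ∈ Q, ∀ v ∈ Q, ∀ w ∈ Q, v ≠ n → w ≠ n →
          lam_z (g n v) + lam_z (g n w) = lam_z (decide (Dθ Q n < Dθ Q v)) + lam_z (Dκ Q v)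
            + (lam_z (decide (Dθ Q n < Dθ Q w)) + lam_z (Dκ Q w)) := by
        intro n hn v hv w hw hvn hwn
        have h := hz _ _ (hg2 n Q hQ hn v hv w hw hvn hwn)
        simpa only [lam_xor] using h
      have a0 := kk (y 0) m0 (y 1) m1 (y 2) m2 n01.symm n20
      have a1 := kk (y 1) m1 (y 2) m2 (y 0) m0 n12.symm n01
      have a2 := kk (y 2) m2 (y 0) m0 (y 1) m1 n20.symm n12
      have l0 := hlt (y 0) m0 (y 1) m1 n01
      have l1 := hlt (y 1) m1 (y 2) m2 n12
      have l2 := hlt (y 2) m2 (y 0) m0 n20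
      rw [Finset.sum_range_succ, Finset.sum_range_succ, Finset.sum_range_succ,
        Finset.sum_range_zero] at e2
      have e3 : (0 : ZMod 2) + (1 + (lam_z (g (y 0) (y 1)) + lam_z (g (y 0) (y 2))))
          + (1 + (lam_z (g (y 1) (y 2)) + lam_z (g (y 1) (y 3))))
          + (1 + (lam_z (g (y 2) (y 3)) + lam_z (g (y 2) (y 4)))) = 1 := e2
      rw [p3, p4] at e3
      rw [a0, a1, a2] at e3
      generalize lam_z (decide (Dθ Q (y 0) < Dθ Q (y 1))) = A1 at e3 l0
      generalize lam_z (decide (Dθ Q (y 1) < Dθ Q (y 0))) = A2 at e3 l0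
      generalize lam_z (decide (Dθ Q (y 1) < Dθ Q (y 2))) = B1 at e3 l1
      generalize lam_z (decide (Dθ Q (y 2) < Dθ Q (y 1))) = B2 at e3 l1
      generalize lam_z (decide (Dθ Q (y 2) < Dθ Q (y 0))) = C1 at e3 l2
      generalize lam_z (decide (Dθ Q (y 0) < Dθ Q (y 2))) = C2 at e3 l2
      generalize lam_z (Dκ Q (y 0)) = K0 at e3
      generalize lam_z (Dκ Q (y 1)) = K1 at e3
      generalize lam_z (Dκ Q (y 2)) = K2 at e3
      have e4 : (0 : ZMod 2) + (1 + (A1 + K1 + (C2 + K2))) + (1 + (B1 + K2 + (A2 + K0)))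
          + (1 + (C1 + K0 + (B2 + K1))) = (1 + 1 + 1) + (A1 + A2) + (B1 + B2) + (C1 + C2)
            + (K0 + K0) + (K1 + K1) + (K2 + K2) := by ring
      rw [e4, l0, l1, l2, lam_two K0, lam_two K1, lam_two K2] at e3
      exact absurd e3 (by decide)

end Pool.Agent.Helper64.DT
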